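import Mathlib

/-!
Definitions for the improvement of the Kabatiansky-Levenshtein bound.
Harmonic polynomials with the Fischer inner product.
-/

set_option autoImplicit false

open MvPolynomial Finset

namespace Pool.Agent.Helper14.KL

/-- real polynomials in `n` variables -/
abbrev PP (n : ℕ) := MvPolynomial (Fin n) ℝ

variable {n : ℕ}

/-- the Fischer weight `s!` of an exponent -/
noncomputable def fw (s : Fin n →₀ ℕ) : ℝ := ∏ i, ((s i).factorial : ℝ)

/-- the Fischer inner product -/
noncomputable def fis (p q : PP n) : ℝ := ∑ s ∈ p.support, fw s * (coeff s p * coeff s q)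

/-- the Laplacian -/
noncomputable def lap (p : PP n) : PP n := ∑ i, pderiv i (pderiv i p)

/-- the squared norm of the variable -/
noncomputable def r2 : PP n := ∑ i, X i ^ 2

/-- the linear form with coefficient vector `x` -/
noncomputable def lin (x : Fin n → ℝ) : PP n := ∑ i, C (x i) * X i

/-- the derivative in direction `x` -/
noncomputable def dd (x : Fin n → ℝ) (p : PP n) : PP n := ∑ i, C (x i) * pderiv i p

/-- the space of harmonic homogeneous polynomials of degree `a` -/
def Harm (a : ℕ) (p : PP n) : Prop := p.IsHomogeneous a ∧ lap p = 0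

/-- multiplication by the linear form `x`, followed by the harmonic projection, on harmonic
polynomials of degree `a` -/
noncomputable def UU (a : ℕ) (x : Fin n → ℝ) (p : PP n) : PP n :=
  lin x * p - C (1 / (2 * (a : ℝ) + n - 2)) * (r2 * dd x p)

/-- the coordinate vector -/
def ev (i : Fin n) : Fin n → ℝ := Pi.single i 1

/-- `∑ D_i U_i` on harmonic polynomials of degree `a` -/
noncomputable def sg (n a : ℕ) : ℝ :=
  (2 * (a : ℝ) + n) * ((a : ℝ) + n - 2) / (2 * (a : ℝ) + n - 2)

/-- `D_x h_k = dl k h_(k-1)` -/
noncomputable def dl (n e k : ℕ) : ℝ :=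
  (k : ℝ) * ((k : ℝ) + 2 * e + n - 3) / (2 * (e : ℝ) + 2 * k + n - 4)

/-- products of linear forms -/
noncomputable def ww {m : ℕ} (f : Fin m → Fin n → ℝ) (I : Finset (Fin m)) : PP n :=
  ∏ i ∈ I, lin (f i)

/-- the vectors `h_k = U_x^k w` of degree `e + k` -/
noncomputable def hh (e : ℕ) (x : Fin n → ℝ) (w : PP n) : ℕ → PP n
  | 0 => w
  | (k + 1) => UU (e + k) x (hh e x w k)

end Pool.Agent.Helper14.KL
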